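import Pool.Agent.W634.BQ.Stms

/-! BQ-GNS: the Hilbert space of an extreme invariant mean. -/

set_option autoImplicit false
open Filter Topology Finset
open scoped BoundedContinuousFunction InnerProductSpace ComplexConjugate

namespace Pool.Agent.W505.BQ

open Pool.Agent.W634.BQ

/-! ### the complexified mean -/

@[simp] theorem cre_apply (f : ℤ →ᵇ ℂ) (n : ℤ) : cre f n = (f n).re := rfl
@[simp] theorem cim_apply (f : ℤ →ᵇ ℂ) (n : ℤ) : cim f n = (f n).im := rfl
@[simp] theorem sh_apply {β : Type} [PseudoMetricSpace β] (k : ℤ) (f : ℤ →ᵇ β) (n : ℤ) :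
    sh k f n = f (n + k) := rfl
@[simp] theorem chr_apply (θ : Circle) (n : ℤ) : chr θ n = ((θ ^ n : Circle) : ℂ) := rfl

/-- real bounded functions as complex ones -/
noncomputable def co (f : ℤ →ᵇ ℝ) : ℤ →ᵇ ℂ :=
  BoundedContinuousFunction.ofNormedAddCommGroupDiscrete (fun n => (f n : ℂ)) ‖f‖ (by
    intro x
    rw [Complex.norm_real]
    exact f.norm_coe_le_norm x)

@[simp] theorem co_apply (f : ℤ →ᵇ ℝ) (n : ℤ) : co f n = (f n : ℂ) := rfl

variable (m : (ℤ →ᵇ ℝ) →ₗ[ℝ] ℝ)

/-- the complexified mean -/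
noncomputable def mC : (ℤ →ᵇ ℂ) →ₗ[ℂ] ℂ where
  toFun f := ((m (cre f) : ℝ) : ℂ) + ((m (cim f) : ℝ) : ℂ) * Complex.I
  map_add' f g := by
    have h1 : cre (f + g) = cre f + cre g := by ext n; simp
    have h2 : cim (f + g) = cim f + cim g := by ext n; simp
    rw [h1, h2, map_add, map_add]
    push_cast
    ring
  map_smul' c f := by
    have h1 : cre (c • f) = c.re • cre f - c.im • cim f := by ext n; simp
    have h2 : cim (c • f) = c.re • cim f + c.im • cre f := by
      ext n
      simp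
    rw [h1, h2, map_sub, map_add, map_smul, map_smul, map_smul, map_smul]
    simp only [smul_eq_mul, RingHom.id_apply]
    apply Complex.ext
    · simp
    · simp

theorem mC_apply (f : ℤ →ᵇ ℂ) :
    mC m f = ((m (cre f) : ℝ) : ℂ) + ((m (cim f) : ℝ) : ℂ) * Complex.I := rfl

theorem mC_star (f : ℤ →ᵇ ℂ) : mC m (star f) = conj (mC m f) := by
  have h1 : cre (star f) = cre f := by ext n; simp
  have h2 : cim (star f) = - cim f := by ext n; simp
  rw [mC_apply, mC_apply, h1, h2, map_neg]
  apply Complex.ext <;> simp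

theorem mC_co (f : ℤ →ᵇ ℝ) : mC m (co f) = (m f : ℂ) := by
  have h1 : cre (co f) = f := by ext n; simp
  have h2 : cim (co f) = 0 := by ext n; simp
  rw [mC_apply, h1, h2, map_zero]
  simp

variable {m}

theorem mC_sh (hm : IsMean m) (f : ℤ →ᵇ ℂ) : mC m (sh 1 f) = mC m f := by
  have h1 : cre (sh 1 f) = sh 1 (cre f) := by ext n; simp
  have h2 : cim (sh 1 f) = sh 1 (cim f) := by ext n; simp
  rw [mC_apply, mC_apply, h1, h2, hm.inv, hm.inv]

theorem mC_nonneg (hm : IsMean m) (f : ℤ →ᵇ ℂ) : 0 ≤ (mC m (star f * f)).re := by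
  rw [mC_apply]
  simp only [Complex.add_re, Complex.ofReal_re, Complex.mul_re, Complex.I_re, mul_zero,
    Complex.ofReal_im, Complex.I_im, mul_one, sub_self, add_zero]
  apply hm.pos
  intro n
  simp only [cre_apply, BoundedContinuousFunction.coe_mul, Pi.mul_apply,
    BoundedContinuousFunction.star_apply]
  rw [RCLike.star_def, Complex.mul_re, Complex.conj_re, Complex.conj_im]
  nlinarith [sq_nonneg (f n).re, sq_nonneg (f n).im]

/-! ### the pre-Hilbert space -/

/-- invariant means, bundled -/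
abbrev MM : Type := {m : (ℤ →ᵇ ℝ) →ₗ[ℝ] ℝ // IsMean m}

set_option linter.unusedVariables false in
/-- the pre-Hilbert space of a mean -/
def PreV (M : MM) : Type := ℤ →ᵇ ℂ

variable (M : MM)

noncomputable instance : AddCommGroup (PreV M) := inferInstanceAs (AddCommGroup (ℤ →ᵇ ℂ))
noncomputable instance : Module ℂ (PreV M) := inferInstanceAs (Module ℂ (ℤ →ᵇ ℂ))

/-- the identity map to the pre-Hilbert space -/
noncomputable def toV : (ℤ →ᵇ ℂ) ≃ₗ[ℂ] PreV M := LinearEquiv.refl ℂ _

/-- the inner product -/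
noncomputable abbrev preCore : PreInnerProductSpace.Core ℂ (PreV M) where
  inner a b := mC M.1 (star ((toV M).symm a) * (toV M).symm b)
  conj_inner_symm a b := by
    rw [← mC_star]
    congr 1
    rw [star_mul, star_star]
  re_inner_nonneg a := mC_nonneg M.2 _
  add_left a b c := by
    rw [map_add, star_add, add_mul, map_add]
  smul_left a b r := by
    rw [map_smul, star_smul, smul_mul_assoc, map_smul]
    rfl

noncomputable instance : SeminormedAddCommGroup (PreV M) :=
  InnerProductSpace.Core.toSeminormedAddCommGroup (c := preCore M)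
noncomputable instance : InnerProductSpace ℂ (PreV M) :=
  InnerProductSpace.ofCore (preCore M)

theorem inner_toV (f g : ℤ →ᵇ ℂ) : ⟪toV M f, toV M g⟫_ℂ = mC M.1 (star f * g) := rfl

/-- the Hilbert space -/
abbrev HH : Type := UniformSpace.Completion (PreV M)

/-- the canonical map -/
noncomputable def io : (ℤ →ᵇ ℂ) →ₗ[ℂ] HH M :=
  (UniformSpace.Completion.toComplL (𝕜 := ℂ) (E := PreV M)).toLinearMap ∘ₗ (toV M).toLinearMap

theorem io_apply (f : ℤ →ᵇ ℂ) : io M f = ((toV M f : PreV M) : HH M) := rfl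

theorem io_dense : DenseRange (io M) := by
  have h : DenseRange ((↑) : PreV M → HH M) := UniformSpace.Completion.denseRange_coe
  exact h.comp (toV M).surjective.denseRange (UniformSpace.Completion.continuous_coe _)

theorem inner_io (f g : ℤ →ᵇ ℂ) : ⟪io M f, io M g⟫_ℂ = mC M.1 (star f * g) := by
  rw [io_apply, io_apply, UniformSpace.Completion.inner_coe, inner_toV]

/-! ### the unitaries -/

theorem norm_io_eq (f g : ℤ →ᵇ ℂ) (h : mC M.1 (star f * f) = mC M.1 (star g * g)) :
    ‖io M f‖ = ‖io M g‖ := by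
  have h1 : ‖io M f‖ ^ 2 = ‖io M g‖ ^ 2 := by
    rw [← inner_self_eq_norm_sq (𝕜 := ℂ), ← inner_self_eq_norm_sq (𝕜 := ℂ), inner_io, inner_io, h]
  exact (pow_left_inj₀ (norm_nonneg _) (norm_nonneg _) (by norm_num)).1 h1

/-- the shift as a linear equivalence -/
noncomputable def shE : (ℤ →ᵇ ℂ) ≃ₗ[ℂ] (ℤ →ᵇ ℂ) where
  toFun f := sh 1 f
  invFun f := sh (-1) f
  map_add' f g := by ext n; simp
  map_smul' c f := by ext n; simp
  left_inv f := by ext n; simp
  right_inv f := by ext n; simp

theorem shE_apply (f : ℤ →ᵇ ℂ) : shE f = sh 1 f := rfl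

theorem chr_inv_mul (θ : Circle) : chr θ⁻¹ * chr θ = 1 := by
  ext n
  simp only [BoundedContinuousFunction.coe_mul, Pi.mul_apply, chr_apply,
    BoundedContinuousFunction.coe_one, Pi.one_apply]
  rw [← Circle.coe_mul, ← mul_zpow, inv_mul_cancel, one_zpow, Circle.coe_one]

theorem chr_mul_inv (θ : Circle) : chr θ * chr θ⁻¹ = 1 := by
  rw [mul_comm, chr_inv_mul]

theorem star_chr (θ : Circle) : star (chr θ) = chr θ⁻¹ := by
  ext n
  simp only [BoundedContinuousFunction.star_apply, chr_apply]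
  rw [inv_zpow, Circle.coe_inv_eq_conj, RCLike.star_def]

/-- multiplication by a character as a linear equivalence -/
noncomputable def muE (θ : Circle) : (ℤ →ᵇ ℂ) ≃ₗ[ℂ] (ℤ →ᵇ ℂ) where
  toFun f := chr θ * f
  invFun f := chr θ⁻¹ * f
  map_add' f g := mul_add _ _ _
  map_smul' c f := by
    simp only [RingHom.id_apply, mul_smul_comm]
  left_inv f := by
    show chr θ⁻¹ * (chr θ * f) = f
    rw [← mul_assoc, chr_inv_mul, one_mul]
  right_inv f := by
    show chr θ * (chr θ⁻¹ * f) = f
    rw [← mul_assoc, chr_mul_inv, one_mul]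

theorem muE_apply (θ : Circle) (f : ℤ →ᵇ ℂ) : muE θ f = chr θ * f := rfl

/-- the Koopman operator -/
noncomputable def UU : HH M ≃ₗᵢ[ℂ] HH M :=
  shE.extendOfIsometry (io M) (io M) (io_dense M) (io_dense M) (by
    intro f
    apply norm_io_eq
    rw [shE_apply]
    have h : star (sh 1 f) * sh 1 f = sh 1 (star f * f) := by ext n; simp
    rw [h, mC_sh M.2])

theorem UU_io (f : ℤ →ᵇ ℂ) : UU M (io M f) = io M (sh 1 f) :=
  LinearEquiv.extendOfIsometry_eq _ _ _ _ _ _ _

/-- multiplication by a character -/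
noncomputable def MU (θ : Circle) : HH M ≃ₗᵢ[ℂ] HH M :=
  (muE θ).extendOfIsometry (io M) (io M) (io_dense M) (io_dense M) (by
    intro f
    apply norm_io_eq
    rw [muE_apply]
    have h : star (chr θ * f) * (chr θ * f) = star f * f := by
      rw [star_mul, star_chr]
      calc star f * chr θ⁻¹ * (chr θ * f) = star f * ((chr θ⁻¹ * chr θ) * f) := by ring
        _ = star f * f := by rw [chr_inv_mul, one_mul]
    rw [h])

theorem MU_io (θ : Circle) (f : ℤ →ᵇ ℂ) : MU M θ (io M f) = io M (chr θ * f) :=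
  LinearEquiv.extendOfIsometry_eq _ _ _ _ _ _ _

theorem UU_MU (θ : Circle) (x : HH M) :
    UU M (MU M θ x) = (θ : ℂ) • MU M θ (UU M x) := by
  refine (io_dense M).induction_on (p := fun x => UU M (MU M θ x) = (θ : ℂ) • MU M θ (UU M x))
    x ?_ ?_
  · have h1 : Continuous fun x : HH M => MU M θ (UU M x) :=
      (MU M θ).continuous.comp (UU M).continuous
    exact isClosed_eq ((UU M).continuous.comp (MU M θ).continuous) (h1.const_smul (θ : ℂ))
  · intro f
    rw [MU_io, UU_io, UU_io, MU_io, ← map_smul]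
    congr 1
    ext n
    simp only [sh_apply, BoundedContinuousFunction.coe_mul, Pi.mul_apply, chr_apply,
      BoundedContinuousFunction.coe_smul, smul_eq_mul]
    rw [zpow_add, zpow_one, Circle.coe_mul]
    ring

/-! ### invariant vectors -/

theorem co_add (f g : ℤ →ᵇ ℝ) : co (f + g) = co f + co g := by ext n; simp
theorem co_smul (c : ℝ) (f : ℤ →ᵇ ℝ) : co (c • f) = (c : ℂ) • co f := by ext n; simp
theorem co_one : co 1 = 1 := by ext n; simp
theorem co_sh (f : ℤ →ᵇ ℝ) : co (sh 1 f) = sh 1 (co f) := by ext n; simp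
theorem co_mul (f g : ℤ →ᵇ ℝ) : co (f * g) = co f * co g := by ext n; simp
theorem star_co (f : ℤ →ᵇ ℝ) : star (co f) = co f := by ext n; simp
theorem decomp (f : ℤ →ᵇ ℂ) : f = co (cre f) + Complex.I • co (cim f) := by
  ext n
  simp only [BoundedContinuousFunction.coe_add, Pi.add_apply, co_apply, cre_apply, cim_apply,
    BoundedContinuousFunction.coe_smul, smul_eq_mul]
  rw [mul_comm, Complex.re_add_im]

/-- mean ergodic theorem, packaged -/
theorem met {H : Type} [NormedAddCommGroup H] [InnerProductSpace ℂ H] [CompleteSpace H]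
    (U : H ≃ₗᵢ[ℂ] H) :
    ∃ P : H →L[ℂ] H, (∀ x, U (P x) = P x) ∧ (∀ x, U x = x → P x = x) ∧
      ∀ x, Tendsto (fun N : ℕ => (N : ℂ)⁻¹ • ∑ n ∈ range N, (U^[n]) x) atTop (𝓝 (P x)) := by
  let u : H →L[ℂ] H := U.toLinearIsometry.toContinuousLinearMap
  let K : Submodule ℂ H := u.eqLocus (1 : H →L[ℂ] H)
  have hu : ‖u‖ ≤ 1 := U.toLinearIsometry.norm_toContinuousLinearMap_le
  have hmem : ∀ x, x ∈ K ↔ U x = x := fun x => Iff.rfl
  refine ⟨K.subtypeL ∘L K.orthogonalProjectionOnto, ?_, ?_, ?_⟩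
  · intro x
    exact (hmem _).1 (K.orthogonalProjectionOnto x).2
  · intro x hx
    have := K.orthogonalProjectionOnto_mem_subspace_eq_self ⟨x, (hmem x).2 hx⟩
    exact congrArg Subtype.val this
  · intro x
    exact u.tendsto_birkhoffAverage_orthogonalProjection hu x

theorem UU_iter (n : ℕ) (f : ℤ →ᵇ ℂ) : ((UU M)^[n]) (io M f) = io M (sh (n : ℤ) f) := by
  induction n with
  | zero =>
      simp only [Function.iterate_zero, id_eq]
      congr 1
      ext k; simp
  | succ n ih =>
      rw [Function.iterate_succ_apply', ih, UU_io]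
      congr 1
      ext k
      simp only [sh_apply, Nat.cast_add, Nat.cast_one]
      congr 1
      ring

variable {M}

theorem proj_unit (he : Extr M.1) (P : HH M →L[ℂ] HH M) (hP1 : ∀ x, UU M (P x) = P x)
    (hP3 : ∀ x, Tendsto (fun N : ℕ => (N : ℂ)⁻¹ • ∑ n ∈ range N, ((UU M)^[n]) x) atTop (𝓝 (P x)))
    (f : ℤ →ᵇ ℝ) (hf : ∀ n, 0 ≤ f n ∧ f n ≤ 1) :
    ∃ c : ℂ, P (io M (co f)) = c • io M 1 := by
  set v := P (io M (co f)) with hv
  -- the inner products with real functions are limits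
  have hlim : ∀ g : ℤ →ᵇ ℝ, Tendsto (fun N : ℕ =>
      (((N : ℝ)⁻¹ * ∑ n ∈ range N, M.1 (sh (n : ℤ) f * g) : ℝ) : ℂ)) atTop
      (𝓝 (⟪v, io M (co g)⟫_ℂ)) := by
    intro g
    have h1 := (hP3 (io M (co f))).inner (𝕜 := ℂ) (tendsto_const_nhds (x := io M (co g)))
    refine h1.congr fun N => ?_
    rw [inner_smul_left, sum_inner]
    have h2 : ∀ n ∈ range N, ⟪((UU M)^[n]) (io M (co f)), io M (co g)⟫_ℂ
        = ((M.1 (sh (n : ℤ) f * g) : ℝ) : ℂ) := by
      intro n _
      rw [UU_iter, inner_io]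
      have h3 : star (sh (n : ℤ) (co f)) * co g = co (sh (n : ℤ) f * g) := by
        ext k; simp
      rw [h3, mC_co]
    rw [Finset.sum_congr rfl h2]
    push_cast
    simp
  have hreal : ∀ g : ℤ →ᵇ ℝ, (⟪v, io M (co g)⟫_ℂ).im = 0 := by
    intro g
    have h1 := (Complex.continuous_im.tendsto _).comp (hlim g)
    refine tendsto_nhds_unique h1 ?_
    refine tendsto_const_nhds.congr fun N => ?_
    simp
  let m' : (ℤ →ᵇ ℝ) →ₗ[ℝ] ℝ :=
    { toFun := fun g => (⟪v, io M (co g)⟫_ℂ).re
      map_add' := by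
        intro a b
        rw [co_add, map_add, inner_add_right, Complex.add_re]
      map_smul' := by
        intro c a
        rw [co_smul, map_smul, inner_smul_right]
        simp }
  have hm' : ∀ g, m' g = (⟪v, io M (co g)⟫_ℂ).re := fun g => rfl
  have hlim' : ∀ g : ℤ →ᵇ ℝ, Tendsto (fun N : ℕ =>
      ((N : ℝ)⁻¹ * ∑ n ∈ range N, M.1 (sh (n : ℤ) f * g) : ℝ)) atTop (𝓝 (m' g)) := by
    intro g
    have h1 := (Complex.continuous_re.tendsto _).comp (hlim g)
    refine h1.congr fun N => ?_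
    exact Complex.ofReal_re _
  have hE := he m' ?_ ?_
  · refine ⟨((m' 1 : ℝ) : ℂ), ?_⟩
    refine (io_dense M).eq_of_inner_left ℂ fun g => ?_
    have hco : ∀ g : ℤ →ᵇ ℝ, ⟪v, io M (co g)⟫_ℂ = ⟪((m' 1 : ℝ) : ℂ) • io M 1, io M (co g)⟫_ℂ := by
      intro g
      rw [inner_smul_left, inner_io, star_one, one_mul, mC_co, Complex.conj_ofReal,
        ← Complex.ofReal_mul, ← hE g, hm']
      apply Complex.ext
      · simp
      · rw [hreal g]; simp
    rw [decomp g, map_add, map_smul, inner_add_right, inner_add_right, inner_smul_right,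
      inner_smul_right, hco, hco]
  · intro g hg
    constructor
    · refine ge_of_tendsto' (hlim' g) fun N => ?_
      refine mul_nonneg (by positivity) (Finset.sum_nonneg fun n _ => ?_)
      apply M.2.pos
      intro k
      simp only [BoundedContinuousFunction.coe_mul, Pi.mul_apply, sh_apply]
      exact mul_nonneg (hf _).1 (hg _)
    · refine le_of_tendsto (hlim' g) ?_
      filter_upwards [eventually_gt_atTop 0] with N hN
      have hN' : (0 : ℝ) < N := by exact_mod_cast hN
      have h1 : ∑ n ∈ range N, M.1 (sh (n : ℤ) f * g) ≤ ∑ n ∈ range N, M.1 g := by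
        refine Finset.sum_le_sum fun n _ => ?_
        have h2 : 0 ≤ M.1 (g - sh (n : ℤ) f * g) := by
          apply M.2.pos
          intro k
          simp only [BoundedContinuousFunction.coe_mul, BoundedContinuousFunction.coe_sub,
            Pi.mul_apply, Pi.sub_apply, sh_apply]
          nlinarith [hg k, (hf (k + n)).2]
        rw [map_sub] at h2
        linarith
      rw [Finset.sum_const, card_range, nsmul_eq_mul] at h1
      rw [inv_mul_le_iff₀ hN']
      exact h1
  · intro g
    have h1 : ⟪v, UU M (io M (co g))⟫_ℂ = ⟪v, io M (co g)⟫_ℂ := by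
      have h2 : UU M v = v := hP1 _
      have h3 := (UU M).inner_map_map v (io M (co g))
      rw [h2] at h3
      exact h3
    rw [hm', hm', co_sh, ← UU_io, h1]

theorem proj_all (he : Extr M.1) (P : HH M →L[ℂ] HH M) (hP1 : ∀ x, UU M (P x) = P x)
    (hP3 : ∀ x, Tendsto (fun N : ℕ => (N : ℂ)⁻¹ • ∑ n ∈ range N, ((UU M)^[n]) x) atTop (𝓝 (P x)))
    (x : HH M) : P x ∈ Submodule.span ℂ {io M 1} := by
  have hunit : ∀ f : ℤ →ᵇ ℝ, (∀ n, 0 ≤ f n ∧ f n ≤ 1) →
      P (io M (co f)) ∈ Submodule.span ℂ {io M 1} := by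
    intro f hf
    obtain ⟨c, hc⟩ := proj_unit he P hP1 hP3 f hf
    rw [hc]
    exact Submodule.smul_mem _ _ (Submodule.mem_span_singleton_self _)
  have hreal : ∀ f : ℤ →ᵇ ℝ, P (io M (co f)) ∈ Submodule.span ℂ {io M 1} := by
    intro f
    set C : ℝ := ‖f‖ + 1 with hC
    have hC0 : 0 < C := by positivity
    set f0 : ℤ →ᵇ ℝ := (2 * C)⁻¹ • (f + C • (1 : ℤ →ᵇ ℝ)) with hf0
    have h1 : f = (2 * C) • f0 + (-C) • (1 : ℤ →ᵇ ℝ) := by
      rw [hf0, smul_smul, mul_inv_cancel₀ (by positivity), one_smul]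
      ext n
      simp
    have h2 : ∀ n, 0 ≤ f0 n ∧ f0 n ≤ 1 := by
      intro n
      have h3 := f.norm_coe_le_norm n
      rw [Real.norm_eq_abs, abs_le] at h3
      have h4 : f0 n = (2 * C)⁻¹ * (f n + C) := by
        rw [hf0]
        simp
        ring
      rw [h4]
      constructor
      · apply mul_nonneg (by positivity)
        linarith
      · rw [inv_mul_le_iff₀ (by positivity)]
        linarith
    clear_value f0
    rw [h1, co_add, co_smul, co_smul, map_add, map_smul, map_smul, map_add, map_smul, map_smul]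
    exact Submodule.add_mem _ (Submodule.smul_mem _ _ (hunit f0 h2))
      (Submodule.smul_mem _ _ (hunit 1 (by intro n; simp)))
  have hcl : IsClosed ((Submodule.span ℂ {io M 1} : Submodule ℂ (HH M)) : Set (HH M)) :=
    Submodule.closed_of_finiteDimensional _
  refine (io_dense M).induction_on (p := fun x => P x ∈ Submodule.span ℂ {io M 1}) x ?_ ?_
  · exact hcl.preimage P.continuous
  · intro f
    rw [decomp f, map_add, map_smul, map_add, map_smul]
    exact Submodule.add_mem _ (hreal _) (Submodule.smul_mem _ _ (hreal _))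

theorem gns : S_gns := by
  intro m hm he
  let M : MM := ⟨m, hm⟩
  refine ⟨HH M, inferInstance, inferInstance, inferInstance, UU M, io M, io_dense M, ?_, UU_io M,
    ?_⟩
  · intro f g
    exact inner_io M f g
  · intro θ v hv
    obtain ⟨P, hP1, hP2, hP3⟩ := met (UU M)
    have h1 : UU M (MU M θ⁻¹ v) = MU M θ⁻¹ v := by
      rw [UU_MU, hv, map_smul, smul_smul, ← Circle.coe_mul, inv_mul_cancel, Circle.coe_one,
        one_smul]
    have h2 := proj_all (M := M) he P hP1 hP3 (MU M θ⁻¹ v)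
    rw [hP2 _ h1, Submodule.mem_span_singleton] at h2
    obtain ⟨c, hc⟩ := h2
    refine ⟨c, ?_⟩
    apply (MU M θ⁻¹).injective
    rw [← hc, map_smul, MU_io, chr_inv_mul]

end Pool.Agent.W505.BQ
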